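import Pool.Agent.Y264.LQ.El

/-!
# Quantum unique ergodicity on average for Liouville quantum gravity and other random measures

Let `H` be a Hilbert space whose elements `v` define functions `q v` on a compact metric space `M`. For
Liouville quantum gravity on a bounded plane domain `D` one takes `M = closure D`, `H = H¹₀ (D)` with
the scalar product `1/2 ∫ ∇u · ∇v` (it does not depend on the field) and the quasi-continuous
representative `q v`. For a random finite measure `μ` (the Liouville measure) consider the eigenvectors
`u 0, u 1, ...` of the form `⟪v, v⟫` with respect to `∫ (q v)² dμ`; these are the eigenfunctions of the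
generator of the Liouville Brownian motion, and the eigenvalues are `lam 0 ≤ lam 1 ≤ ...`.

Assume Weyl's law in probability: `lam j * μ (M) / j → C` (for Liouville quantum gravity this is the
theorem of Berestycki and Wong, with `C = 1 / c_γ`). Let `f` be a continuous function such that the law
of the field is quasi-invariant under a flow which multiplies `μ` by `exp (t f)` (for the Gaussian free
field `h` and the Liouville measure: the shifts `h ↦ h + (t / γ) f`, `f ∈ H¹₀ (D) ∩ C`, by the theorem of
Cameron and Martin), or a limit of linear combinations of such functions (every continuous function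
with compact support in `D`). Then

* `∫ f (q (u j))² dμ → ∫ f dμ / μ (M)` weakly: after multiplication by any integrable random variable
  `χ` the expectations converge, along the full sequence of eigenvalues;
* if the random variables `∫ f (q (u (J k)))² dμ` converge almost surely at some points, or in
  probability, for a deterministic sequence of indices `J k → ∞`, then the limit is
  `∫ f dμ / μ (M)`: no other limit is possible.

The proof: by Hadamard's formula the derivative of `log lam j` along the flow is
`- ∫ f (q (u j))² dμ` for almost every time, for every choice of the eigenbasis. By Weyl's law the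
differences of `log lam j` along the flow converge to those of `- log μ (M)`, first along subsequences
and on an invariant set of full measure. Quasi-invariance and the density of time averages give weak
convergence.

The spectral theory is that of the projects QE and QR (see `Pool/Agent/Y262/QE/All.lean` and
`Pool/Agent/Y264/QR/All.lean`; parts by helpers 147, 155, 161, 165, 363, 390, 401, 419, 469, 592, 618,
941).
-/

set_option autoImplicit false

open Set Filter Topology MeasureTheory
open Pool.Agent.Y264.LQ.El

noncomputable section

namespace Pool.Agent.Results.MP_12c1cc_pr.QueOnAverage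

section defs

variable {Ω M H : Type} [MeasurableSpace Ω] [MetricSpace M] [CompactSpace M] [MeasurableSpace M]
  [NormedAddCommGroup H] [InnerProductSpace ℝ H]

/-- the mass of `f` for the function `q v` and the measure `ν` -/
def mass (q : H → M → ℝ) (ν : Measure M) (f : C(M, ℝ)) (v : H) : ℝ :=
  ∫ x, f x * (q v x) ^ 2 ∂ν

/-- the mean value of `f` -/
def mean (ν : Measure M) (f : C(M, ℝ)) : ℝ := (∫ x, f x ∂ν) / ν.real univ

/-- the closed span of the directions in which `μ` is quasi-invariant -/
def dirs (P : Measure Ω) (μ : Ω → Measure M) : Set C(M, ℝ) :=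
  closure (Submodule.span ℝ {g | Pool.Agent.Y264.LQ.QI P μ g} : Set C(M, ℝ))

/-- `μ` is a random finite measure, `u` and `lam` are random eigenbases, Weyl's law holds in
probability -/
structure Spectrum (P : Measure Ω) (q : H → M → ℝ) (μ : Ω → Measure M) (u : Ω → ℕ → H)
    (lam : Ω → ℕ → ℝ) (C : ℝ) : Prop where
  fin : ∀ o, IsFiniteMeasure (μ o)
  trace : ∀ o, IsTrace q (μ o)
  basis : ∀ o, Pool.Agent.Y264.LQ.IsEigenbasis q (μ o) (u o) (lam o)
  meas : ∀ g : C(M, ℝ), Measurable fun o => ∫ x, g x ∂(μ o)
  meas_lam : ∀ j, Measurable fun o => lam o j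
  meas_mass : ∀ (j : ℕ) (g : C(M, ℝ)), Measurable fun o => mass q (μ o) g (u o j)
  pos : 0 < C
  weyl : TendstoInMeasure P (fun (j : ℕ) o => lam o j * (μ o).real univ / (j + 1)) atTop fun _ => C

end defs

theorem result (Ω M H : Type) [MeasurableSpace Ω] [MetricSpace M] [CompactSpace M]
    [MeasurableSpace M] [BorelSpace M] [NormedAddCommGroup H] [InnerProductSpace ℝ H]
    [CompleteSpace H] (q : H → M → ℝ) :
    (∀ (ν : Measure M) [IsFiniteMeasure ν], IsTrace q ν →
      ∃ (u : ℕ → H) (lam : ℕ → ℝ), Pool.Agent.Y264.LQ.IsEigenbasis q ν u lam) ∧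
    ∀ (P : Measure Ω) [IsProbabilityMeasure P] (μ : Ω → Measure M) (u : Ω → ℕ → H)
      (lam : Ω → ℕ → ℝ) (C : ℝ), Spectrum P q μ u lam C → ∀ f ∈ dirs P μ,
        (∀ χ : Ω → ℝ, Integrable χ P →
          Tendsto (fun j => ∫ o, χ o * mass q (μ o) f (u o j) ∂P) atTop
            (𝓝 (∫ o, χ o * mean (μ o) f ∂P))) ∧
        ∀ J : ℕ → ℕ, Tendsto J atTop atTop →
          (∀ᵐ o ∂P, ∀ L : ℝ,
            Tendsto (fun k => mass q (μ o) f (u o (J k))) atTop (𝓝 L) → L = mean (μ o) f) ∧
          ∀ Z : Ω → ℝ,
            TendstoInMeasure P (fun k o => mass q (μ o) f (u o (J k))) atTop Z →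
              Z =ᵐ[P] fun o => mean (μ o) f := by
  refine ⟨fun ν _ hν => Pool.Agent.Y264.LQ.exists_basis q ν (toLib hν), ?_⟩
  intro P _ μ u lam C h f hf
  obtain ⟨m1, m2⟩ := Pool.Agent.Y264.LQ.main (P := P) (q := q) (μ := μ) (u := u) (lam := lam)
    (C := C) ⟨h.fin, fun o => toLib (h.trace o), h.meas, h.basis, h.meas_lam, h.meas_mass, h.pos,
      h.weyl⟩ f hf
  refine ⟨m1, fun J hJ => ⟨m2 J hJ, fun Z hZ => ?_⟩⟩
  obtain ⟨ns, hns, hae⟩ := hZ.exists_seq_tendsto_ae
  filter_upwards [hae, m2 (fun k => J (ns k)) (hJ.comp hns.tendsto_atTop)] with o ho1 ho2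
  exact ho2 _ ho1

end Pool.Agent.Results.MP_12c1cc_pr.QueOnAverage
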